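import Pool.Agent.H10.Cl3

namespace Pool.Agent.Results.MP_cac0a5_al.IntoGr
open Pool.Agent.H10.ClDefs

theorem result (X : Type) [Countable X] [Infinite X] : Emb (Cl X) (Gr X) :=
  (cl_mon X).trans (mon_gr X)

end Pool.Agent.Results.MP_cac0a5_al.IntoGr
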