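import Pool.Agent.H10.Cl1

namespace Pool.Agent.Results.MP_cac0a5_al.IntoMon
open Pool.Agent.H10.ClDefs

theorem result (X : Type) [Countable X] [Infinite X] : Emb (Cl X) (Mon X) := cl_mon X

end Pool.Agent.Results.MP_cac0a5_al.IntoMon
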